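import Pool.Agent.Helper28.LV.StL

/-!
# Project LV, module EG: the function of a matrix given by a symbol
-/

set_option autoImplicit false

namespace Pool.Agent.Helper47.LV

open Pool.Agent.Helper14.CV Pool.Agent.Helper28.WK Pool.Agent.Helper28.LV

/-- The functional `P ↦ ∑ coeff P s * D s`. -/
private noncomputable def Lf {K : Type} [Field K] (N : ℕ) (D : ℕ → K) : Polynomial K →ₗ[K] K :=
  ∑ s ∈ Finset.range N, (D s) • Polynomial.lcoeff K s

private theorem Lf_apply {K : Type} [Field K] (N : ℕ) (D : ℕ → K) (P : Polynomial K) :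
    Lf N D P = ∑ s ∈ Finset.range N, P.coeff s * D s := by
  simp only [Lf, LinearMap.sum_apply, LinearMap.smul_apply, Polynomial.lcoeff_apply, smul_eq_mul]
  exact Finset.sum_congr rfl fun s _ => mul_comm _ _

private theorem Lf_mono {K : Type} [Field K] (N : ℕ) (D : ℕ → K) (c : K) (k : ℕ) (hk : k < N) :
    Lf N D (Polynomial.C c * Polynomial.X ^ k) = c * D k := by
  rw [Lf_apply, Finset.sum_eq_single k]
  · rw [Polynomial.coeff_C_mul_X_pow, if_pos rfl]
  · intro s _ hs
    rw [Polynomial.coeff_C_mul_X_pow, if_neg hs, zero_mul]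
  · intro h
    exact absurd (Finset.mem_range.mpr hk) h

private theorem expand {K : Type} [Field K] (a : ℕ) (α β γ δ : K) :
    (Polynomial.C α * Polynomial.X + Polynomial.C β) ^ a *
      (Polynomial.C γ * Polynomial.X + Polynomial.C δ) ^ a =
    ∑ i ∈ Finset.range (a + 1), ∑ j ∈ Finset.range (a + 1),
      Polynomial.C (((a.choose i : K) * (a.choose j : K)) *
        (α ^ (a - i) * β ^ i * (γ ^ j * δ ^ (a - j)))) * Polynomial.X ^ (a - i + j) := by
  rw [add_comm (Polynomial.C α * Polynomial.X) (Polynomial.C β), add_pow, add_pow,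
    Finset.sum_mul_sum]
  refine Finset.sum_congr rfl fun i _ => Finset.sum_congr rfl fun j _ => ?_
  simp only [map_mul, map_pow, map_natCast]
  ring

theorem hEG : StEG := by
  intro p _ a Φ
  have hE : ∀ (v1 v2 w1 w2 : ℤ) (α β γ δ : ℚ_[p]), EGf a Φ v1 v2 w1 w2 α β γ δ =
      Lf (2 * a + 1) (fun s => ((Φ w1 w2 s - Φ v1 v2 s : ℤ_[p]) : ℚ_[p]))
        ((Polynomial.C α * Polynomial.X + Polynomial.C β) ^ a *
          (Polynomial.C γ * Polynomial.X + Polynomial.C δ) ^ a) := by
    intro v1 v2 w1 w2 α β γ δ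
    rw [Lf_apply]
    rfl
  refine ⟨?_, ?_, ?_, ?_⟩
  · intro v1 v2 w1 w2
    refine ⟨fun i j => ((a.choose i : ℚ_[p]) * (a.choose j : ℚ_[p])) *
      ((Φ w1 w2 (a - i + j) - Φ v1 v2 (a - i + j) : ℤ_[p]) : ℚ_[p]), fun α β γ δ => ?_⟩
    rw [hE, expand, map_sum]
    refine Finset.sum_congr rfl fun i hi => ?_
    rw [map_sum]
    refine Finset.sum_congr rfl fun j hj => ?_
    have hi' := Finset.mem_range.mp hi
    have hj' := Finset.mem_range.mp hj
    rw [Lf_mono _ _ _ _ (by omega)]
    ring
  · intro v1 v2 w1 w2 α β γ δ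
    rw [hE, hE]
    have h : (Polynomial.C (-γ) * Polynomial.X + Polynomial.C (-δ)) ^ a *
        (Polynomial.C α * Polynomial.X + Polynomial.C β) ^ a =
        ((-1 : ℚ_[p]) ^ a) • ((Polynomial.C α * Polynomial.X + Polynomial.C β) ^ a *
          (Polynomial.C γ * Polynomial.X + Polynomial.C δ) ^ a) := by
      have h1 : Polynomial.C (-γ) * Polynomial.X + Polynomial.C (-δ) =
          Polynomial.C (-1 : ℚ_[p]) * (Polynomial.C γ * Polynomial.X + Polynomial.C δ) := by
        simp only [map_neg, map_one]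
        ring
      rw [h1, mul_pow, Polynomial.smul_eq_C_mul, map_pow]
      ring
    rw [h, map_smul, smul_eq_mul]
  · intro v1 v2 w1 w2
    rw [hE]
    have h : (Polynomial.C (1 : ℚ_[p]) * Polynomial.X + Polynomial.C 0) ^ a *
        (Polynomial.C 0 * Polynomial.X + Polynomial.C 1) ^ a =
        Polynomial.C (1 : ℚ_[p]) * Polynomial.X ^ a := by
      simp
    rw [h, Lf_mono _ _ _ _ (by omega), one_mul]
  · intro v1 v2 w1 w2 α β γ δ hv hw h
    have h1 := h.diff hw hv
    simp only [act, cp] at h1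
    rw [h1]
    set P : Polynomial ℤ := (Polynomial.C α * Polynomial.X + Polynomial.C β) ^ a *
      (Polynomial.C γ * Polynomial.X + Polynomial.C δ) ^ a with hP
    have hdeg : P.natDegree < 2 * a + 1 := by
      have d1 : ((Polynomial.C α * Polynomial.X + Polynomial.C β) ^ a).natDegree ≤ a * 1 :=
        Polynomial.natDegree_pow_le_of_le a Polynomial.natDegree_linear_le
      have d2 : ((Polynomial.C γ * Polynomial.X + Polynomial.C δ) ^ a).natDegree ≤ a * 1 :=
        Polynomial.natDegree_pow_le_of_le a Polynomial.natDegree_linear_le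
      have d3 := Polynomial.natDegree_mul_le_of_le d1 d2
      rw [hP]
      omega
    have hmap : (Polynomial.C (α : ℚ_[p]) * Polynomial.X + Polynomial.C (β : ℚ_[p])) ^ a *
        (Polynomial.C (γ : ℚ_[p]) * Polynomial.X + Polynomial.C (δ : ℚ_[p])) ^ a =
        P.map (Int.castRingHom ℚ_[p]) := by
      rw [hP]
      simp only [Polynomial.map_mul, Polynomial.map_pow, Polynomial.map_add, Polynomial.map_C,
        Polynomial.map_X, Int.coe_castRingHom]
    rw [hE, hmap, Lf_apply, pr_eq_sum Φ P _ hdeg]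
    simp only [Finset.sum_apply, Pi.smul_apply, cp]
    rw [← Finset.sum_sub_distrib]
    have hsum : ∀ F : ℕ → ℤ_[p], ((∑ s ∈ Finset.range (2 * a + 1), F s : ℤ_[p]) : ℚ_[p]) =
        ∑ s ∈ Finset.range (2 * a + 1), (F s : ℚ_[p]) := fun F =>
      map_sum PadicInt.Coe.ringHom F _
    rw [hsum]
    refine Finset.sum_congr rfl fun s _ => ?_
    rw [Polynomial.coeff_map]
    simp only [zsmul_eq_mul, eq_intCast]
    push_cast
    ring

end Pool.Agent.Helper47.LV
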